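import Pool.Agent.U724.NT.Defs

/-!
# The image of a natural transformation on the powers of an object
-/

set_option autoImplicit false

open CategoryTheory MonoidalCategory Module
open Pool.Agent.Y112.SR Pool.Agent.Y112.KD Pool.Agent.N64.AF

namespace Pool.Agent.U724.NT

universe v u t x

variable {C : Type u} [Category.{v} C] [MonoidalCategory C] {Λ : Type t} [Field Λ]
  {M D : C ⥤ ModuleCat.{x} Λ}

/-- The dimension of the image of `r` on the power `S ^ n`, a natural number or infinity. -/
noncomputable def imDim (S : C) (r : M ⟶ D) (n : ℕ) : ℕ∞ :=
  dimE Λ (LinearMap.range (r.app (tp S n)).hom)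

end Pool.Agent.U724.NT
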