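import Pool.Agent.U724.NT.Law
import Pool.Agent.U724.NT.GDefs
import Pool.Agent.N64.AF.M5
import Pool.Agent.H914R2.Core0

/-!
# The growth of the image of a natural transformation
-/

set_option autoImplicit false
set_option linter.unusedSectionVars false

open CategoryTheory Limits MonoidalCategory Module Filter Topology
open Pool.Agent.Y112.SR Pool.Agent.Y112.KD Pool.Agent.N64.AF Pool.Agent.N8.AFBb
open scoped ENNReal

namespace Pool.Agent.U724.NT

universe v u w t x

variable {C : Type u} [Category.{v} C] [Preadditive C] [MonoidalCategory C]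
  [MonoidalPreadditive C] [SymmetricCategory C] [RightRigidCategory C]
  {Λ : Type t} [Field Λ] [CharZero Λ] [Linear Λ C] [MonoidalLinear Λ C]
  {K : Type w} [Field K] [IsAlgClosed K] [Algebra Λ K] {R : SuperRealisation C K}

/-- A power of a numerically trivial endomorphism is homologically trivial. -/
theorem exists_pow_hom (hR : IsReal Λ R) {Y : C} (hY : R.CPlus Y) {y : End Y}
    (hy : NumTriv (y : Y ⟶ Y)) : ∃ k : ℕ, R.H.map ((y ^ k : End Y) : Y ⟶ Y) = 0 := by
  have hK : CharZero K := charZero_K Λ K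
  have : Module.Finite K (R.H.obj Y) := R.finite Y
  have h1 : IsNilpotent (rho R Y y) := by
    refine Pool.Agent.H914.isNilpotent_of_trace_pow _ fun s => ?_
    have h2 := (mem_perp_iff hR hY (y : Y ⟶ Y)).2 hy _ (mem_CK R ((y ^ s : End Y) : Y ⟶ Y))
    rw [pow_succ, ← map_pow]
    exact h2
  obtain ⟨k, hk⟩ := h1
  refine ⟨k, ?_⟩
  rw [← map_pow] at hk
  ext a
  exact LinearMap.congr_fun hk a

lemma map_pow_hom (F : C ⥤ ModuleCat.{x} Λ) {Y : C} (y : End Y) (k : ℕ) :
    ((F.map (y : Y ⟶ Y)).hom : Module.End Λ (F.obj Y)) ^ k =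
      (F.map ((y ^ k : End Y) : Y ⟶ Y)).hom := by
  induction k with
  | zero =>
    rw [pow_zero, pow_zero]
    change _ = (F.map (𝟙 Y)).hom
    rw [F.map_id]
    rfl
  | succ k ih =>
    rw [pow_succ', pow_succ', ih]
    change _ = (F.map (((y ^ k : End Y) : Y ⟶ Y) ≫ (y : Y ⟶ Y))).hom
    rw [F.map_comp]
    rfl

/-- Numerically trivial operators are nilpotent on functors which are zero on homologically trivial
morphisms. -/
theorem nil_of_hom (hR : IsReal Λ R) {Y : C} (hY : R.CPlus Y) (F : C ⥤ ModuleCat.{x} Λ)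
    (hF : ∀ u : Y ⟶ Y, R.H.map u = 0 → F.map u = 0) {y : Y ⟶ Y} (hy : NumTriv y) :
    IsNilpotent ((F.map y).hom : Module.End Λ (F.obj Y)) := by
  obtain ⟨k, hk⟩ := exists_pow_hom hR hY (y := (y : End Y)) hy
  refine ⟨k, ?_⟩
  have h1 := map_pow_hom F (y : End Y) k
  refine h1.trans ?_
  rw [hF _ hk]
  rfl

/-- The image functor. -/
abbrev imF {M D : C ⥤ ModuleCat.{x} Λ} (r : M ⟶ D) : C ⥤ ModuleCat.{x} Λ :=
  sub D _ (stab_range r)

/-- One element generates a numerical motive. -/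
theorem exists_motive (hR : IsReal Λ R) {U : C} (hU : R.CPlus U) (F : C ⥤ ModuleCat.{x} Λ)
    [F.Additive] [F.Linear Λ] [Module.Finite Λ (F.obj U)]
    (hnil : ∀ y : U ⟶ U, NumTriv y → IsNilpotent ((F.map y).hom : Module.End Λ (F.obj U)))
    (hne : ¬ Subsingleton (F.obj U)) :
    ∃ (g : U ⟶ U) (k : ℕ), NumIdem g ∧ IsRk R g k ∧ 0 < k ∧ 0 < nr Λ g (𝟙 U) ∧
      ∀ Z : C, Module.Finite Λ (F.obj Z) → nr Λ g (𝟙 Z) ≤ finrank Λ (F.obj Z) := by
  obtain ⟨g, z, hg, hgpos, hgz⟩ := exists_simple hR hU F hnil hne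
  obtain ⟨k, hk, -⟩ := exists_rk hR hU hg
  have hkpos : 0 < k := by
    by_contra h0
    have h1 : k = 0 := by omega
    have h2 := nr_le_rk hR hU hU hg (numIdem_id U) hk (isRk_id R U)
    rw [h1, zero_mul] at h2
    omega
  refine ⟨g, k, hg, hk, hkpos, hgpos, fun Z hZ => ?_⟩
  have h2 := finrank_map_of_ker (thetaMap F g z Z) (nuMap Λ g Z) (by
    intro c hc'
    rw [mem_ker_nuMap]
    exact hgz _ c hc')
  have h3 : finrank Λ (LinearMap.range (nuMap Λ g Z)) = nr Λ g (𝟙 Z) := rfl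
  have h4 := Submodule.finrank_le (LinearMap.range (thetaMap F g z Z))
  omega

end Pool.Agent.U724.NT
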