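import Pool.Agent.N64.AF.Q

/-!
# The law for natural transformations between additive functors: definitions
-/

set_option autoImplicit false

open CategoryTheory MonoidalCategory Module Filter Topology
open Pool.Agent.Y112.SR Pool.Agent.Y112.KD Pool.Agent.N64.AF
open scoped ENNReal

namespace Pool.Agent.U724.NT

universe v u w t x

variable {C : Type u} [Category.{v} C] [Preadditive C] [MonoidalCategory C]
  [MonoidalPreadditive C] [SymmetricCategory C] [RightRigidCategory C]
  {K : Type w} [Field K]

/-- The sequence `d n / ρ n` converges to `N`, where `ρ n` is the dimension of the space of the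
morphisms from the unit object to `T ^ n` modulo numerical equivalence. -/
def HasLaw (Λ : Type t) [Field Λ] [Linear Λ C] [MonoidalLinear Λ C] (T : C) (d : ℕ → ℕ∞)
    (N : ℕ∞) : Prop :=
  Tendsto (fun n => ((d n : ℕ∞) : ℝ≥0∞) / numRank Λ (tp T n)) atTop (𝓝 (N : ℝ≥0∞))

/-- There are finitely many objects `S i = (T ^ m i, e i)`, with endomorphisms `e i` of the tensor
powers `T ^ m i` which are idempotent modulo numerical equivalence, of ranks `r i > 0` (the rank is
the trace of the realisation of `e i`, the total Betti number of `S i`), such that the sum of the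
ranks is `k` and `d n` is the sum over `i` of the dimensions of the spaces of the morphisms
`e i ≫ c : T ^ m i ⟶ T ^ n` modulo numerical equivalence, for all `n`. -/
def Counts (Λ : Type t) [Field Λ] [Linear Λ C] [MonoidalLinear Λ C] [Algebra Λ K]
    (R : SuperRealisation C K) (T : C) (k : ℕ) (d : ℕ → ℕ∞) : Prop :=
  ∃ (ι : Type) (_ : Fintype ι) (m r : ι → ℕ) (e : ∀ i, tp T (m i) ⟶ tp T (m i)),
    (∀ i, NumIdem (e i) ∧ IsRk R (e i) (r i) ∧ 0 < r i) ∧ ∑ i, r i = k ∧
      ∀ n, d n = ((∑ i, nr Λ (e i) (𝟙 (tp T n)) : ℕ) : ℕ∞)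

section Dims

variable {Λ : Type t} [Field Λ] {M D : C ⥤ ModuleCat.{x} Λ}

/-- The dimension of the kernel of `r` on the power `T ^ n`, a natural number or infinity. -/
noncomputable def kerDim (T : C) (r : M ⟶ D) (n : ℕ) : ℕ∞ :=
  dimE Λ (LinearMap.ker (r.app (tp T n)).hom)

/-- The dimension of the cokernel of `r` on the power `T ^ n`, a natural number or infinity. -/
noncomputable def cokerDim (T : C) (r : M ⟶ D) (n : ℕ) : ℕ∞ :=
  dimE Λ (D.obj (tp T n) ⧸ LinearMap.range (r.app (tp T n)).hom)

/-- All values of `M` on the powers of `T` are finite-dimensional, and each composition of a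
homologically trivial morphism and `k` numerically trivial morphisms between powers of `T` acts as
zero on `M`. -/
def SmallOn [Linear Λ C] (R : SuperRealisation C K) (T : C) (M : C ⥤ ModuleCat.{x} Λ) (k : ℕ) :
    Prop :=
  (∀ n, Module.Finite Λ (M.obj (tp T n))) ∧
    ∀ (a b c : ℕ) (u : tp T a ⟶ tp T b) (f : tp T b ⟶ tp T c), R.H.map u = 0 →
      NumPow T k f → M.map (u ≫ f) = 0

/-- Each composition of `k` numerically trivial morphisms between powers of `T` maps the values of
`D` into the image of `r`. -/
def MapsToImage (T : C) (r : M ⟶ D) (k : ℕ) : Prop :=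
  ∀ (a b : ℕ) (f : tp T a ⟶ tp T b), NumPow T k f →
    LinearMap.range (D.map f).hom ≤ LinearMap.range (r.app (tp T b)).hom

/-- **The law for the natural transformation `r`** on the powers of `S`. Let `ρ n` be the dimension
of the space of the morphisms `𝟙 ⟶ S ^ n` modulo numerical equivalence. Then
* `dim ker r (S ^ n) / ρ n` converges to `A` and `dim coker r (S ^ n) / ρ n` converges to `B`;
* `A = 0` (`B = 0`) if and only if all `r (S ^ n)` are injective (surjective);
* all `r (S ^ n)` are bijective if and only if, for a constant `c < 1` and infinitely many `n`,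
  `dim ker r (S ^ n) + dim coker r (S ^ n) ≤ c ρ n`;
* if `A` is finite then `dim ker r (S ^ n)` counts morphisms (`Counts`), the values of `M` are
  finite-dimensional and compositions of `A + 1` homologically trivial morphisms act as zero on `M`
  (`SmallOn`);
* if `B` is finite then `dim coker r (S ^ n)` counts morphisms, and compositions of `B` numerically
  trivial morphisms map `D` into the image of `r`. -/
structure NatLaw [Linear Λ C] [MonoidalLinear Λ C] [Algebra Λ K] (R : SuperRealisation C K) (S : C)
    (r : M ⟶ D) (A B : ℕ∞) : Prop where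
  ker : HasLaw Λ S (kerDim S r) A
  coker : HasLaw Λ S (cokerDim S r) B
  inj : A = 0 ↔ ∀ n, Function.Injective (r.app (tp S n)).hom
  sur : B = 0 ↔ ∀ n, Function.Surjective (r.app (tp S n)).hom
  bij : (∃ c : ℝ≥0∞, c < 1 ∧ ∃ᶠ n in atTop,
      ((kerDim S r n + cokerDim S r n : ℕ∞) : ℝ≥0∞) ≤ c * numRank Λ (tp S n)) ↔
    ∀ n, Function.Bijective (r.app (tp S n)).hom
  fin_ker : ∀ k : ℕ, A = k → Counts Λ R S k (kerDim S r) ∧ SmallOn R S M k
  fin_coker : ∀ k : ℕ, B = k → Counts Λ R S k (cokerDim S r) ∧ MapsToImage S r k

end Dims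

end Pool.Agent.U724.NT
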