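import Pool.Agent.U724.NT.Nat
import Pool.Agent.U724.NT.Defs

/-!
# The law for natural transformations between additive functors
-/

set_option autoImplicit false
set_option linter.unusedSectionVars false

open CategoryTheory Limits MonoidalCategory Module Filter Topology
open Pool.Agent.Y112.SR Pool.Agent.Y112.KD Pool.Agent.N64.AF
open Pool.Agent.Y116.MT (tr)
open scoped ENNReal

namespace Pool.Agent.U724.NT

universe v u w t x

/-- The extended natural numbers below one. -/
lemma eq_zero_of_le {A : ℕ∞} {c : ℝ≥0∞} (hc : c < 1) (h : (A : ℝ≥0∞) ≤ c) : A = 0 := by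
  by_contra h0
  have h1 : (1 : ℕ∞) ≤ A := Order.one_le_iff_pos.2 (pos_iff_ne_zero.2 h0)
  have h2 : ((1 : ℕ∞) : ℝ≥0∞) ≤ (A : ℝ≥0∞) := by exact_mod_cast h1
  have h3 : ((1 : ℕ∞) : ℝ≥0∞) = 1 := by simp
  rw [h3] at h2
  exact absurd (h2.trans h) (not_le.2 hc)

variable {C : Type u} [Category.{v} C] [Preadditive C] [MonoidalCategory C]
  [MonoidalPreadditive C] [SymmetricCategory C] [RightRigidCategory C]
  {Λ : Type t} [Field Λ] [CharZero Λ] [Linear Λ C] [MonoidalLinear Λ C]
  {K : Type w} [Field K] [IsAlgClosed K] [Algebra Λ K] {R : SuperRealisation C K}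

/-- The law for one functor, with the structure of the functors with finite limit. -/
theorem law_full {T : C} [ExactPairing T T] (h : IsPow Λ R T) (F : C ⥤ ModuleCat.{x} Λ)
    [F.Additive] [F.Linear Λ] : ∃ N : ℕ∞,
      HasLaw Λ T (fun n => dimE Λ (F.obj (tp T n))) N ∧
      (N = 0 ↔ ∀ n, Subsingleton (F.obj (tp T n))) ∧
      ∀ k : ℕ, N = k → (∀ n, Module.Finite Λ (F.obj (tp T n))) ∧
        Counts Λ R T k (fun n => dimE Λ (F.obj (tp T n))) ∧
        ∀ (a b : ℕ) (f : tp T a ⟶ tp T b), NumPow T k f → F.map f = 0 := by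
  obtain ⟨N, h1, h2, h3⟩ := law h F
  refine ⟨N, h1, h2, fun k hk => ?_⟩
  have h4 : Tendsto (fun n => ((dimE Λ (F.obj (tp T n)) : ℕ∞) : ℝ≥0∞) / numRank Λ (tp T n))
      atTop (𝓝 (k : ℝ≥0∞)) := by
    rw [hk] at h1
    exact_mod_cast h1
  obtain ⟨⟨ι, iι, m, r, e, h5, h5', h5''⟩, h6⟩ := structure_thm h F h4
  have hfin := fun n => ((h3 (by rw [hk]; exact ENat.natCast_ne_top k)).1 n).1
  refine ⟨hfin, ⟨ι, iι, m, r, e, h5, h5', fun n => ?_⟩, h6⟩
  have := hfin n
  change dimE Λ (F.obj (tp T n)) = _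
  rw [dimE_eq, h5'' n]

/-- **The law for natural transformations.** -/
theorem nat_law {T : C} [ExactPairing T T] (h : IsPow Λ R T) (M D : C ⥤ ModuleCat.{x} Λ)
    [M.Additive] [M.Linear Λ] [D.Additive] [D.Linear Λ] (r : M ⟶ D)
    (hfin : ∀ n, Module.Finite Λ (D.obj (tp T n)))
    (hhom : ∀ (a b : ℕ) (u : tp T a ⟶ tp T b), R.H.map u = 0 → D.map u = 0) :
    ∃ A B : ℕ∞, NatLaw R T r A B := by
  obtain ⟨A, hA, hA0, hAk⟩ := law_full h (kerF r)
  obtain ⟨B, hB, hB0, hBk⟩ := law_full h (cokerF r)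
  have eA : A = 0 ↔ ∀ n, Function.Injective (r.app (tp T n)).hom := by
    rw [hA0]
    refine forall_congr' fun n => ?_
    change Subsingleton (LinearMap.ker (r.app (tp T n)).hom) ↔ _
    rw [Submodule.subsingleton_iff_eq_bot, LinearMap.ker_eq_bot]
  have eB : B = 0 ↔ ∀ n, Function.Surjective (r.app (tp T n)).hom := by
    rw [hB0]
    refine forall_congr' fun n => ?_
    change Subsingleton (D.obj (tp T n) ⧸ LinearMap.range (r.app (tp T n)).hom) ↔ _
    rw [Submodule.Quotient.subsingleton_iff, LinearMap.range_eq_top]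
  have hpos : ∀ n, 0 < numRank Λ (tp T n) := fun n => (numRank_mono h n).1
  refine ⟨A, B, hA, hB, eA, eB, ⟨?_, ?_⟩, ?_, ?_⟩
  · rintro ⟨c, hc, hf⟩
    have hsum := Filter.Tendsto.add hA hB
    have h1 : (A : ℝ≥0∞) + (B : ℝ≥0∞) ∈ Set.Iic c := by
      refine isClosed_Iic.mem_of_frequently_of_tendsto (hf.mono fun n hn => ?_) hsum
      have h2 : (numRank Λ (tp T n) : ℝ≥0∞) ≠ 0 := by exact_mod_cast (hpos n).ne'
      change _ / _ + _ / _ ≤ c
      rw [ENNReal.div_add_div_same, ENNReal.div_le_iff h2 (ENNReal.natCast_ne_top _)]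
      push_cast at hn
      exact hn
    have h2 : A = 0 := eq_zero_of_le hc (le_trans le_self_add h1)
    have h3 : B = 0 := eq_zero_of_le hc (le_trans le_add_self h1)
    exact fun n => ⟨eA.1 h2 n, eB.1 h3 n⟩
  · intro hb
    refine ⟨0, zero_lt_one, Frequently.of_forall fun n => ?_⟩
    have h1 : kerDim T r n = 0 := by
      rw [kerDim, dimE_zero_iff, Submodule.subsingleton_iff_eq_bot, LinearMap.ker_eq_bot]
      exact (hb n).1
    have h2 : cokerDim T r n = 0 := by
      rw [cokerDim, dimE_zero_iff, Submodule.Quotient.subsingleton_iff, LinearMap.range_eq_top]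
      exact (hb n).2
    rw [h1, h2]
    simp
  · intro k hk
    obtain ⟨h1, h2, h3⟩ := hAk k hk
    refine ⟨h2, fun n => ?_, fun a b c u f hu hf => ?_⟩
    · have := hfin n
      have h4 : Module.Finite Λ (LinearMap.ker (r.app (tp T n)).hom) := h1 n
      have h5 : Module.Finite Λ (LinearMap.range (r.app (tp T n)).hom) := inferInstance
      have h6 : Module.Finite Λ (M.obj (tp T n) ⧸ LinearMap.ker (r.app (tp T n)).hom) :=
        Module.Finite.equiv (r.app (tp T n)).hom.quotKerEquivRange.symm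
      exact Module.Finite.of_submodule_quotient (LinearMap.ker (r.app (tp T n)).hom)
    · ext a₀
      have h4 : (M.map u).hom a₀ ∈ LinearMap.ker (r.app (tp T b)).hom := by
        rw [LinearMap.mem_ker, nat_ap, hhom a b u hu]
        rfl
      have h5 := h3 b c f hf
      have h6 := sub_map_val (stab_ker r) f ⟨_, h4⟩
      rw [h5] at h6
      rw [M.map_comp]
      exact h6.symm
  · intro k hk
    obtain ⟨h1, h2, h3⟩ := hBk k hk
    refine ⟨h2, fun a b f hf => ?_⟩
    rintro _ ⟨x, rfl⟩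
    have h5 := h3 a b f hf
    have h6 := quoS_map_mk (stab_range r) f x
    rw [h5] at h6
    exact (Submodule.Quotient.mk_eq_zero _).1 h6.symm

end Pool.Agent.U724.NT
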