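import Pool.Agent.N64.AF.S

/-!
# Natural transformations between additive functors: kernels and cokernels on all powers
-/

set_option autoImplicit false

open CategoryTheory Limits MonoidalCategory Module Filter Topology
open Pool.Agent.Y112.SR Pool.Agent.Y112.KD Pool.Agent.N64.AF
open Pool.Agent.Y116.MT (tr)
open scoped ENNReal

namespace Pool.Agent.U724.NT

universe v u w t x

section Stab

variable {C : Type u} [Category.{v} C] {Λ : Type t} [Field Λ] {F G H : C ⥤ ModuleCat.{x} Λ}

lemma nat_ap (r : F ⟶ G) {Y Z : C} (f : Y ⟶ Z) (a : F.obj Y) :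
    (r.app Z).hom ((F.map f).hom a) = (G.map f).hom ((r.app Y).hom a) := by
  have h := r.naturality f
  exact congrArg (fun g : F.obj Y ⟶ G.obj Z => g.hom a) h

lemma stab_ker (r : F ⟶ G) : IsStab F (fun Z => LinearMap.ker (r.app Z).hom) := by
  intro Y Z f a ha
  rw [Submodule.mem_comap, LinearMap.mem_ker, nat_ap, LinearMap.mem_ker.1 ha, map_zero]

lemma stab_range (r : F ⟶ G) : IsStab G (fun Z => LinearMap.range (r.app Z).hom) := by
  rintro Y Z f _ ⟨a, rfl⟩
  exact ⟨(F.map f).hom a, nat_ap r f a⟩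

/-- The kernel functor. -/
abbrev kerF (r : F ⟶ G) : C ⥤ ModuleCat.{x} Λ := sub F _ (stab_ker r)

/-- The cokernel functor. -/
abbrev cokerF (r : F ⟶ G) : C ⥤ ModuleCat.{x} Λ := quoS G _ (stab_range r)

/-- A subspace of a subspace. -/
lemma stab_comap {S S' : ∀ Z, Submodule Λ (F.obj Z)} (hS : IsStab F S) (hS' : IsStab F S') :
    IsStab (sub F S hS) (fun Z => (S' Z).comap (S Z).subtype) := by
  rintro Y Z f ⟨a, ha⟩ h
  exact hS' f h

end Stab

lemma dimE_zero_iff {Λ : Type t} [Field Λ] {V : Type x} [AddCommGroup V] [Module Λ V] :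
    dimE Λ V = 0 ↔ Subsingleton V := by
  rw [dimE, Cardinal.toENat_eq_zero, rank_zero_iff]

end Pool.Agent.U724.NT
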