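import Pool.Agent.U724.NT.Defs

/-!
# Exact sequences with the dual of the space of cycles: definitions
-/

set_option autoImplicit false

open CategoryTheory MonoidalCategory Module
open Pool.Agent.Y112.SR Pool.Agent.Y112.KD Pool.Agent.N64.AF

namespace Pool.Agent.U724.NT

universe v u w t x

variable {C : Type u} [Category.{v} C] [Preadditive C] [MonoidalCategory C]
  [MonoidalPreadditive C] [SymmetricCategory C] [RightRigidCategory C]
  {K : Type w} [Field K] {Λ : Type t} [Field Λ] [Linear Λ C] {M D : C ⥤ ModuleCat.{x} Λ}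

/-- The pairings `P Z : D(Z) × Hom(Z, 𝟙) → Λ` satisfy the projection formula
`P (f_* x, z) = P (x, f^* z)`, and for the powers of `T` a cycle `z : T ^ n ⟶ 𝟙` is orthogonal to
`D(T ^ n)` if and only if it is homologically trivial. -/
structure IsCyclePairing (R : SuperRealisation C K) (T : C)
    (P : ∀ Z : C, D.obj Z →ₗ[Λ] (Z ⟶ 𝟙_ C) →ₗ[Λ] Λ) : Prop where
  nat : ∀ {Y Z : C} (f : Y ⟶ Z) (x : D.obj Y) (z : Z ⟶ 𝟙_ C),
    P Z ((D.map f).hom x) z = P Y x (f ≫ z)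
  nondeg : ∀ (n : ℕ) (z : tp T n ⟶ 𝟙_ C), (∀ x, P (tp T n) x z = 0) ↔ R.H.map z = 0

/-- The sequence `0 ⟶ M(T ^ n) ⟶ D(T ^ n) ⟶ (Hom(T ^ n, 𝟙) / hom) ^ * ⟶ 0` is exact, where the
second map is `r` and the third one is given by the pairing `P`. -/
def ExactAt (R : SuperRealisation C K) (T : C) (r : M ⟶ D)
    (P : ∀ Z : C, D.obj Z →ₗ[Λ] (Z ⟶ 𝟙_ C) →ₗ[Λ] Λ) (n : ℕ) : Prop :=
  Function.Injective (r.app (tp T n)).hom ∧
    (∀ x, x ∈ LinearMap.range (r.app (tp T n)).hom ↔ ∀ z, P (tp T n) x z = 0) ∧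
    ∀ φ : (tp T n ⟶ 𝟙_ C) →ₗ[Λ] Λ, (∀ z, R.H.map z = 0 → φ z = 0) → ∃ x, P (tp T n) x = φ

/-- Numerically trivial cycles on the power `T ^ n` are homologically trivial. -/
def HomEqNumAt (R : SuperRealisation C K) (T : C) (n : ℕ) : Prop :=
  ∀ z : tp T n ⟶ 𝟙_ C, NumTriv z → R.H.map z = 0

end Pool.Agent.U724.NT
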