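import Pool.Agent.U724.NT.Cplx
import Pool.Agent.N64.AF.M1

/-!
# The law for complexes `0 ⟶ M ⟶ D ⟶ (cycles) ^ * ⟶ 0`: main theorem
-/

set_option autoImplicit false
set_option linter.unusedSectionVars false

open CategoryTheory Limits MonoidalCategory Module Filter Topology
open Pool.Agent.Y112.SR Pool.Agent.Y112.KD Pool.Agent.N64.AF
open Pool.Agent.N701.AFE5
open scoped ENNReal

namespace Pool.Agent.U724.NT

universe v u w t x

variable {C : Type u} [Category.{v} C] [Preadditive C] [MonoidalCategory C]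
  [MonoidalPreadditive C] [SymmetricCategory C] [RightRigidCategory C]
  {Λ : Type t} [Field Λ] [CharZero Λ] [Linear Λ C] [MonoidalLinear Λ C]
  {K : Type w} [Field K] [IsAlgClosed K] [Algebra Λ K] {R : SuperRealisation C K}

lemma hasLaw_unique {T : C} {d : ℕ → ℕ∞} {N N' : ℕ∞} (h : HasLaw Λ T d N)
    (h' : HasLaw Λ T d N') : N = N' := by
  have h1 := tendsto_nhds_unique h h'
  exact_mod_cast h1

lemma hasLaw_add {T : C} {d d' : ℕ → ℕ∞} {N N' : ℕ∞} (h : HasLaw Λ T d N)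
    (h' : HasLaw Λ T d' N') : HasLaw Λ T (fun n => d n + d' n) (N + N') := by
  have h1 := Filter.Tendsto.add h h'
  unfold HasLaw
  push_cast
  refine h1.congr fun n => ?_
  rw [ENNReal.div_add_div_same]

lemma hasLaw_one {T : C} [ExactPairing T T] (h : IsPow Λ R T) :
    HasLaw Λ T (fun n => (numRank Λ (tp T n) : ℕ∞)) 1 := by
  unfold HasLaw
  have h1 : (fun n => (((numRank Λ (tp T n) : ℕ) : ℕ∞) : ℝ≥0∞) / numRank Λ (tp T n)) =
      fun _ => 1 := by
    funext n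
    have h4 : (numRank Λ (tp T n) : ℝ≥0∞) ≠ 0 := by
      have := (numRank_mono h n).1
      exact_mod_cast this.ne'
    have h5 : (((numRank Λ (tp T n) : ℕ) : ℕ∞) : ℝ≥0∞) = (numRank Λ (tp T n) : ℝ≥0∞) := rfl
    rw [h5]
    exact ENNReal.div_self h4 (ENNReal.natCast_ne_top _)
  rw [h1]
  simp

/-- **The law for the complexes** `0 ⟶ M ⟶ D ⟶ (cycles) ^ * ⟶ 0`. -/
theorem cplx_law {T : C} [ExactPairing T T] (h : IsPow Λ R T) (M D : C ⥤ ModuleCat.{x} Λ)
    [M.Additive] [M.Linear Λ] [D.Additive] [D.Linear Λ] (r : M ⟶ D)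
    (hfin : ∀ n, Module.Finite Λ (D.obj (tp T n)))
    (P : ∀ Z : C, D.obj Z →ₗ[Λ] (Z ⟶ 𝟙_ C) →ₗ[Λ] Λ) (hP : IsCyclePairing R T P)
    (hr : ∀ (Z : C) (x : M.obj Z) (z : Z ⟶ 𝟙_ C), P Z ((r.app Z).hom x) z = 0) :
    (∃ A B : ℕ∞, HasLaw Λ T (kerDim T r) A ∧ HasLaw Λ T (cokerDim T r) B ∧
      (B ≠ ⊤ → ∀ n, HomEqNumAt R T n) ∧
      (A + B = 1 ↔ ∀ n, ExactAt R T r P n ∧ HomEqNumAt R T n)) ∧
    ((∃ c : ℝ≥0∞, c < 2 ∧ ∃ᶠ n in atTop,
        ((kerDim T r n + cokerDim T r n : ℕ∞) : ℝ≥0∞) ≤ c * numRank Λ (tp T n)) ↔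
      ∀ n, ExactAt R T r P n ∧ HomEqNumAt R T n) ∧
    ∀ m n : ℕ, 128 * (m + 1) ^ 2 * bt R T ^ (2 * m + 6) ≤ n →
      2 * (kerDim T r n + cokerDim T r n) < 3 * numRank Λ (tp T n) →
      ExactAt R T r P m ∧ HomEqNumAt R T m := by
  obtain ⟨A, hA, hA0, hAk⟩ := law_full h (kerF r)
  obtain ⟨H, hH, hH0, -⟩ := law_full h (homF2 r hP)
  obtain ⟨E, hE, hE0, hEk⟩ := law_full h (numF3 h.real hP)
  have hco : ∀ n, cokerDim T r n = dimE Λ ((homF2 r hP).obj (tp T n)) +
      dimE Λ ((numF3 h.real hP).obj (tp T n)) + numRank Λ (tp T n) := coker_eq h r hP hr hfin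
  have hpos : ∀ n, 0 < numRank Λ (tp T n) := fun n => (numRank_mono h n).1
  -- the three functors at one power
  have s1 : ∀ n, Subsingleton ((kerF r).obj (tp T n)) ↔
      Function.Injective (r.app (tp T n)).hom := by
    intro n
    change Subsingleton (LinearMap.ker (r.app (tp T n)).hom) ↔ _
    rw [Submodule.subsingleton_iff_eq_bot, LinearMap.ker_eq_bot]
  have s2 : ∀ n, Subsingleton ((homF2 r hP).obj (tp T n)) ↔
      ∀ x, x ∈ LinearMap.range (r.app (tp T n)).hom ↔ ∀ z, P (tp T n) x z = 0 := by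
    intro n
    change Subsingleton ((perp (P (tp T n)) ⊤) ⧸
      (LinearMap.range (r.app (tp T n)).hom).comap (perp (P (tp T n)) ⊤).subtype) ↔ _
    rw [Submodule.Quotient.subsingleton_iff, Submodule.comap_subtype_eq_top]
    constructor
    · intro hle x
      constructor
      · rintro ⟨y, rfl⟩ z
        exact hr _ y z
      · intro hx
        exact hle fun z _ => hx z
    · intro hx x hx'
      exact (hx x).2 fun z => hx' z Submodule.mem_top
  have s3 : ∀ n, Subsingleton ((numF3 h.real hP).obj (tp T n)) ↔ HomEqNumAt R T n := by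
    intro n
    change Subsingleton (D.obj (tp T n) ⧸
      perp (P (tp T n)) (numIdeal Λ (tp T n) (𝟙_ C))) ↔ _
    rw [Submodule.Quotient.subsingleton_iff, perp_eq_top_iff
      (A := homSub h.real (tp T n) (𝟙_ C)) (fun z => hP.nondeg n z)]
    exact ⟨fun hle z hz => hle hz, fun hall z hz => hall z hz⟩
  have sEx : ∀ n, ExactAt R T r P n ∧ HomEqNumAt R T n ↔
      Subsingleton ((kerF r).obj (tp T n)) ∧ Subsingleton ((homF2 r hP).obj (tp T n)) ∧
        Subsingleton ((numF3 h.real hP).obj (tp T n)) := by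
    intro n
    rw [s1, s2, s3]
    constructor
    · rintro ⟨⟨h1, h2, -⟩, h4⟩
      exact ⟨h1, h2, h4⟩
    · rintro ⟨h1, h2, h4⟩
      have := hfin n
      exact ⟨⟨h1, h2, fun φ hφ => exists_of_form (A := homSub h.real (tp T n) (𝟙_ C))
        (fun z => hP.nondeg n z) φ hφ⟩, h4⟩
  have sAll : (∀ n, ExactAt R T r P n ∧ HomEqNumAt R T n) ↔ A = 0 ∧ H = 0 ∧ E = 0 := by
    rw [hA0, hH0, hE0, ← forall_and, ← forall_and]
    exact forall_congr' sEx
  -- the law for the cokernel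
  have hB : HasLaw Λ T (cokerDim T r) (H + E + 1) := by
    have h1 := hasLaw_add (hasLaw_add hH hE) (hasLaw_one h)
    have h2 : cokerDim T r = fun n => dimE Λ ((homF2 r hP).obj (tp T n)) +
      dimE Λ ((numF3 h.real hP).obj (tp T n)) + numRank Λ (tp T n) := funext hco
    rw [h2]
    exact h1
  have hEfin : E ≠ ⊤ → ∀ n, HomEqNumAt R T n := by
    intro hE1
    obtain ⟨k, rfl⟩ := ENat.ne_top_iff_exists.1 hE1
    exact homEqNum_of_finite h hP (hEk k rfl).2.2
  have hsum : ∀ {c : ℝ≥0∞}, c < 2 → ((A + (H + E + 1) : ℕ∞) : ℝ≥0∞) ≤ c →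
      A = 0 ∧ H = 0 ∧ E = 0 := by
    intro c hc hle
    have h1 : ((A + (H + E + 1) : ℕ∞) : ℝ≥0∞) < ((2 : ℕ∞) : ℝ≥0∞) := by
      refine lt_of_le_of_lt hle ?_
      simpa using hc
    have h2 : A + (H + E + 1) < 2 := by exact_mod_cast h1
    have hAt : A ≠ ⊤ := fun h0 => by rw [h0] at h2; simp at h2
    have hHt : H ≠ ⊤ := fun h0 => by rw [h0] at h2; simp at h2
    have hEt : E ≠ ⊤ := fun h0 => by rw [h0] at h2; simp at h2
    obtain ⟨a, rfl⟩ := ENat.ne_top_iff_exists.1 hAt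
    obtain ⟨b, rfl⟩ := ENat.ne_top_iff_exists.1 hHt
    obtain ⟨e, rfl⟩ := ENat.ne_top_iff_exists.1 hEt
    have h3 : a + (b + e + 1) < 2 := by exact_mod_cast h2
    refine ⟨?_, ?_, ?_⟩ <;> · norm_cast; omega
  refine ⟨⟨A, H + E + 1, hA, hB, fun hB' => hEfin fun h0 => hB' (by rw [h0]; simp), ?_⟩, ?_, ?_⟩
  · rw [sAll]
    constructor
    · intro h1
      refine hsum (c := 1) (by norm_num) ?_
      rw [h1]
      simp
    · rintro ⟨rfl, rfl, rfl⟩
      simp
  · rw [sAll]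
    constructor
    · rintro ⟨c, hc, hf⟩
      refine hsum hc ?_
      have h1 : HasLaw Λ T (fun n => kerDim T r n + cokerDim T r n) (A + (H + E + 1)) :=
        hasLaw_add hA hB
      refine isClosed_Iic.mem_of_frequently_of_tendsto (hf.mono fun n hn => ?_) h1
      have h2 : (numRank Λ (tp T n) : ℝ≥0∞) ≠ 0 := by exact_mod_cast (hpos n).ne'
      change _ / _ ≤ c
      rw [ENNReal.div_le_iff h2 (ENNReal.natCast_ne_top _)]
      exact hn
    · intro h0
      have h1 := sAll.2 h0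
      refine ⟨1, by norm_num, Frequently.of_forall fun n => ?_⟩
      obtain ⟨e1, e2, e3⟩ := (sEx n).1 (h1 n)
      have e1' : kerDim T r n = 0 := dimE_zero_iff.2 e1
      rw [e1', hco n, dimE_zero_iff.2 e2, dimE_zero_iff.2 e3]
      simp
  · intro m n hmn hlt
    have hrho : ((numRank Λ (tp T n) : ℕ) : ℕ∞) ≠ ⊤ := ENat.natCast_ne_top _
    have hk : 2 * kerDim T r n + 2 * dimE Λ ((homF2 r hP).obj (tp T n)) +
        2 * dimE Λ ((numF3 h.real hP).obj (tp T n)) < numRank Λ (tp T n) := by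
      rw [hco n] at hlt
      have e1 : (2 : ℕ∞) * (kerDim T r n + (dimE Λ ((homF2 r hP).obj (tp T n)) +
          dimE Λ ((numF3 h.real hP).obj (tp T n)) + numRank Λ (tp T n))) =
          (2 * kerDim T r n + 2 * dimE Λ ((homF2 r hP).obj (tp T n)) +
          2 * dimE Λ ((numF3 h.real hP).obj (tp T n))) + 2 * numRank Λ (tp T n) := by ring
      have e2 : (3 : ℕ∞) * (numRank Λ (tp T n) : ℕ∞) =
          (numRank Λ (tp T n) : ℕ∞) + 2 * numRank Λ (tp T n) := by ring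
      rw [e1, e2] at hlt
      exact lt_of_add_lt_add_right hlt
    have b1 : 2 * kerDim T r n < numRank Λ (tp T n) :=
      lt_of_le_of_lt (le_trans le_self_add le_self_add) hk
    have b2 : 2 * dimE Λ ((homF2 r hP).obj (tp T n)) < numRank Λ (tp T n) :=
      lt_of_le_of_lt (le_trans le_add_self le_self_add) hk
    have b3 : 2 * dimE Λ ((numF3 h.real hP).obj (tp T n)) < numRank Λ (tp T n) :=
      lt_of_le_of_lt le_add_self hk
    have crit : ∀ (F : C ⥤ ModuleCat.{x} Λ) [F.Additive] [F.Linear Λ],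
        2 * dimE Λ (F.obj (tp T n)) < numRank Λ (tp T n) → Subsingleton (F.obj (tp T m)) := by
      intro F _ _ hF
      obtain ⟨f1, f2⟩ := dimE_lt hF
      exact explicit_criterion h F hmn f1 f2
    exact (sEx m).2 ⟨crit _ b1, crit _ b2, crit _ b3⟩

end Pool.Agent.U724.NT
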