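import Pool.Agent.U724.NT.Law
import Pool.Agent.N64.AF.M6

/-!
# Powers of numerically trivial cycles as compositions
-/

set_option autoImplicit false
set_option linter.unusedSectionVars false

open CategoryTheory Limits MonoidalCategory Module Filter Topology
open Pool.Agent.Y112.SR Pool.Agent.Y112.KD Pool.Agent.N64.AF Pool.Agent.N64.AF.N690V2
open scoped ENNReal

namespace Pool.Agent.U724.NT

universe v u w t x

variable {C : Type u} [Category.{v} C] [Preadditive C] [MonoidalCategory C]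
  [MonoidalPreadditive C] [SymmetricCategory C] [RightRigidCategory C]
  {Λ : Type t} [Field Λ] [CharZero Λ] [Linear Λ C] [MonoidalLinear Λ C]
  {K : Type w} [Field K] [Algebra Λ K] {R : SuperRealisation C K}

lemma numPow_cons (hR : IsReal Λ R) {T : C} {a b : ℕ} {y : tp T a ⟶ tp T b} (hy : NumTriv y)
    {k : ℕ} : ∀ {W : C} {f : tp T b ⟶ W}, NumPow T k f → NumPow T (k + 1) (y ≫ f) := by
  induction k with
  | zero =>
    intro W f _
    refine ⟨a, 𝟙 _, y ≫ f, trivial, ?_, (Category.id_comp _).symm⟩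
    have h := NumTriv.comp hR hy (𝟙 _) f
    rwa [Category.id_comp] at h
  | succ k ih =>
    rintro W f ⟨b', g, y', hg, hy', rfl⟩
    exact ⟨b', y ≫ g, y', ih hg, hy', (Category.assoc _ _ _).symm⟩

/-- The exterior powers of a cycle `z : Z ⟶ 𝟙`. -/
def cpow {Z : C} (z : Z ⟶ 𝟙_ C) : ∀ k : ℕ, tp Z k ⟶ 𝟙_ C
  | 0 => 𝟙 _
  | k + 1 => (tp Z k ◁ z) ≫ (ρ_ (tp Z k)).hom ≫ cpow z k

lemma exists_chain' (hR : IsReal Λ R) {T : C} {m : ℕ} {z : tp T m ⟶ 𝟙_ C} (hz : NumTriv z)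
    (k : ℕ) : ∃ (b : ℕ) (i : tp T b ≅ tp (tp T m) (k + 1)) (f : tp T b ⟶ tp T m),
      NumPow T k f ∧ f ≫ z = i.hom ≫ cpow z (k + 1) := by
  induction k with
  | zero =>
    obtain ⟨b, ⟨i⟩⟩ := exists_iso T m 1
    refine ⟨b, i.symm, i.inv ≫ (λ_ (tp T m)).hom, trivial, ?_⟩
    change (i.inv ≫ (λ_ (tp T m)).hom) ≫ z =
      i.inv ≫ (𝟙_ C ◁ z) ≫ (ρ_ (𝟙_ C)).hom ≫ 𝟙 _
    rw [Category.assoc, Category.comp_id, unitors_equal.symm, leftUnitor_naturality]
  | succ k ih =>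
    obtain ⟨b, i, f, hf, hfz⟩ := ih
    obtain ⟨b', ⟨j⟩⟩ := exists_iso T m (k + 2)
    refine ⟨b', j.symm, (j.inv ≫ (tp (tp T m) (k + 1) ◁ z) ≫ (ρ_ _).hom ≫ i.inv) ≫ f, ?_, ?_⟩
    · refine numPow_cons hR ?_ hf
      exact NumTriv.comp hR (NumTriv.whiskerLeft hR hz _) j.inv ((ρ_ _).hom ≫ i.inv)
    · rw [Category.assoc, hfz]
      change (j.inv ≫ (tp (tp T m) (k + 1) ◁ z) ≫ (ρ_ _).hom ≫ i.inv) ≫ i.hom ≫
        cpow z (k + 1) = j.inv ≫ (tp (tp T m) (k + 1) ◁ z) ≫ (ρ_ _).hom ≫ cpow z (k + 1)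
      simp only [Category.assoc, Iso.inv_hom_id_assoc]

lemma exists_sec (R : SuperRealisation C K) {Z : C} {z : Z ⟶ 𝟙_ C} (hz : R.H.map z ≠ 0) :
    ∃ s : R.H.obj (𝟙_ C) ⟶ R.H.obj Z, s ≫ R.H.map z = 𝟙 _ := by
  have h1 : finrank K (R.H.obj (𝟙_ C)) = 1 := bt_unit R
  have h2 : LinearMap.range (R.H.map z).hom = ⊤ := by
    have hfin : Module.Finite K (R.H.obj (𝟙_ C)) := R.finite _
    apply Submodule.eq_top_of_finrank_eq
    rw [h1]
    have h3 : finrank K (LinearMap.range (R.H.map z).hom) ≤ 1 := h1 ▸ Submodule.finrank_le _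
    have h4 : finrank K (LinearMap.range (R.H.map z).hom) ≠ 0 := by
      intro h0
      apply hz
      have h5 := Submodule.finrank_eq_zero.1 h0
      rw [LinearMap.range_eq_bot] at h5
      ext x
      rw [h5]
      rfl
    omega
  obtain ⟨g, hg⟩ := (R.H.map z).hom.exists_rightInverse_of_surjective h2
  refine ⟨ModuleCat.ofHom g, ?_⟩
  ext w
  exact LinearMap.congr_fun hg w

lemma map_one_ne (R : SuperRealisation C K) : R.H.map (𝟙 (𝟙_ C)) ≠ 0 := by
  intro h'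
  have h1 : finrank K (R.H.obj (𝟙_ C)) = 1 := bt_unit R
  have h2 : 𝟙 (R.H.obj (𝟙_ C)) = 0 := by
    rw [← CategoryTheory.Functor.map_id]
    exact h'
  have h4 : Subsingleton (R.H.obj (𝟙_ C)) :=
    ModuleCat.subsingleton_of_isZero ((IsZero.iff_id_eq_zero _).2 h2)
  rw [finrank_zero_of_subsingleton] at h1
  exact zero_ne_one h1

lemma map_cpow_ne (R : SuperRealisation C K) {Z : C} {z : Z ⟶ 𝟙_ C} (hz : R.H.map z ≠ 0)
    (k : ℕ) : R.H.map (cpow z k) ≠ 0 := by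
  obtain ⟨s, hs⟩ := exists_sec R hz
  induction k with
  | zero => exact map_one_ne R
  | succ k ih =>
    intro h0
    apply ih
    have h1 : R.H.map (cpow z (k + 1)) = Functor.OplaxMonoidal.δ R.H (tp Z k) Z ≫
        (R.H.obj (tp Z k) ◁ R.H.map z) ≫ Functor.LaxMonoidal.μ R.H (tp Z k) (𝟙_ C) ≫
          R.H.map (ρ_ (tp Z k)).hom ≫ R.H.map (cpow z k) := by
      change R.H.map ((tp Z k ◁ z) ≫ (ρ_ (tp Z k)).hom ≫ cpow z k) = _
      rw [Functor.map_comp, Functor.map_comp, Functor.Monoidal.map_whiskerLeft]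
      simp only [Category.assoc]
    calc R.H.map (cpow z k)
        = (R.H.map (ρ_ (tp Z k)).inv ≫ Functor.OplaxMonoidal.δ R.H (tp Z k) (𝟙_ C) ≫
            (R.H.obj (tp Z k) ◁ s) ≫ Functor.LaxMonoidal.μ R.H (tp Z k) Z) ≫
            R.H.map (cpow z (k + 1)) := by
          rw [h1]
          simp only [Category.assoc, Functor.Monoidal.μ_δ_assoc]
          rw [← MonoidalCategory.whiskerLeft_comp_assoc, hs, MonoidalCategory.whiskerLeft_id,
            Category.id_comp, Functor.Monoidal.δ_μ_assoc, ← Functor.map_comp_assoc, Iso.inv_hom_id,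
            CategoryTheory.Functor.map_id, Category.id_comp]
      _ = 0 := by rw [h0, comp_zero]

end Pool.Agent.U724.NT
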