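import Mathlib

/-!
# Linear algebra of a pairing
-/

set_option autoImplicit false

open Module

namespace Pool.Agent.U724.NT

variable {Λ : Type*} [Field Λ] {V X : Type*} [AddCommGroup V] [Module Λ V] [AddCommGroup X]
  [Module Λ X]

lemma finrank_quot_add {W : Type*} [AddCommGroup W] [Module Λ W] [FiniteDimensional Λ W]
    (g : X →ₗ[Λ] W) {B : Submodule Λ X} (hB : LinearMap.ker g ≤ B) :
    finrank Λ (X ⧸ B) + finrank Λ (B.map g) = finrank Λ (LinearMap.range g) := by
  set f : X →ₗ[Λ] (LinearMap.range g) ⧸ (B.map g.rangeRestrict) :=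
    (B.map g.rangeRestrict).mkQ ∘ₗ g.rangeRestrict with hf
  have hker : LinearMap.ker f = B := by
    rw [hf, LinearMap.ker_comp, Submodule.ker_mkQ, Submodule.comap_map_eq,
      LinearMap.ker_rangeRestrict]
    exact sup_eq_left.2 hB
  have hsur : Function.Surjective f := by
    rw [hf, LinearMap.coe_comp]
    exact (Submodule.mkQ_surjective _).comp g.surjective_rangeRestrict
  have e1 := (LinearMap.quotKerEquivOfSurjective f hsur).finrank_eq
  rw [hker] at e1
  have e2 := Submodule.finrank_quotient_add_finrank (B.map g.rangeRestrict)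
  have e3 : finrank Λ (B.map g.rangeRestrict) = finrank Λ (B.map g) := by
    have e4 : (B.map g.rangeRestrict).map (LinearMap.range g).subtype = B.map g := by
      rw [← Submodule.map_comp]
      rfl
    rw [← e4]
    exact (Submodule.finrank_map_subtype_eq _ _).symm
  rw [e1, ← e3]
  exact e2

/-- The vectors which are orthogonal to `B`. -/
def perp (P : V →ₗ[Λ] X →ₗ[Λ] Λ) (B : Submodule Λ X) : Submodule Λ V where
  carrier := {x | ∀ z ∈ B, P x z = 0}
  zero_mem' := fun z _ => by rw [map_zero, LinearMap.zero_apply]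
  add_mem' := fun {a b} ha hb z hz => by
    rw [map_add, LinearMap.add_apply, ha z hz, hb z hz, add_zero]
  smul_mem' := fun c a ha z hz => by
    rw [map_smul, LinearMap.smul_apply, ha z hz, smul_zero]

variable {P : V →ₗ[Λ] X →ₗ[Λ] Λ}

lemma mem_perp {B : Submodule Λ X} {x : V} : x ∈ perp P B ↔ ∀ z ∈ B, P x z = 0 := Iff.rfl

lemma perp_eq (B : Submodule Λ X) : perp P B = (B.map P.flip).dualCoannihilator := by
  ext x
  rw [Submodule.mem_dualCoannihilator, mem_perp]
  constructor
  · rintro h _ ⟨z, hz, rfl⟩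
    exact h z hz
  · intro h z hz
    exact h _ ⟨z, hz, rfl⟩

lemma perp_anti {B B' : Submodule Λ X} (h : B ≤ B') : perp P B' ≤ perp P B :=
  fun _ hx z hz => hx z (h hz)

variable [FiniteDimensional Λ V]

lemma finrank_perp (B : Submodule Λ X) :
    finrank Λ (B.map P.flip) + finrank Λ (perp P B) = finrank Λ V := by
  rw [perp_eq]
  exact Subspace.finrank_add_finrank_dualCoannihilator_eq _

variable {A : Submodule Λ X} (hA : ∀ z, (∀ x, P x z = 0) ↔ z ∈ A)

include hA

omit [FiniteDimensional Λ V] in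
lemma ker_flip : LinearMap.ker P.flip = A := by
  ext z
  rw [LinearMap.mem_ker, ← hA]
  constructor
  · intro h x
    rw [← LinearMap.flip_apply, h, LinearMap.zero_apply]
  · intro h
    ext x
    exact h x

/-- The dimensions of the orthogonal spaces. -/
theorem finrank_perp_sub {B : Submodule Λ X} (hAB : A ≤ B) :
    finrank Λ (perp P B) = finrank Λ (perp P ⊤) + finrank Λ (X ⧸ B) := by
  have h1 := finrank_perp (P := P) B
  have h2 := finrank_perp (P := P) ⊤
  rw [Submodule.map_top] at h2
  have h3 := finrank_quot_add P.flip (B := B) (by rw [ker_flip hA]; exact hAB)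
  omega

omit [FiniteDimensional Λ V] in
lemma perp_eq_top_iff {B : Submodule Λ X} : perp P B = ⊤ ↔ B ≤ A := by
  rw [eq_top_iff]
  constructor
  · intro h z hz
    exact (hA z).1 fun x => h (Submodule.mem_top (x := x)) z hz
  · intro h x _ z hz
    exact (hA z).2 (h hz) x

/-- The pairing gives all linear forms which are zero on `A`. -/
theorem exists_of_form (φ : X →ₗ[Λ] Λ) (hφ : ∀ z ∈ A, φ z = 0) : ∃ x : V, P x = φ := by
  have h1 : LinearMap.ker P.flip ≤ LinearMap.ker φ := by
    rw [ker_flip hA]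
    exact fun z hz => hφ z hz
  let ψ : LinearMap.range P.flip →ₗ[Λ] Λ :=
    (LinearMap.ker P.flip).liftQ φ h1 ∘ₗ P.flip.quotKerEquivRange.symm.toLinearMap
  obtain ⟨χ, hχ⟩ := LinearMap.exists_extend ψ
  refine ⟨(Module.evalEquiv Λ V).symm χ, ?_⟩
  ext z
  have h2 : P ((Module.evalEquiv Λ V).symm χ) z = χ (P.flip z) := by
    rw [← LinearMap.flip_apply P]
    exact Module.apply_evalEquiv_symm_apply Λ V (P.flip z) χ
  have h3 : χ (P.flip z) = ψ ⟨P.flip z, z, rfl⟩ := by
    rw [← hχ]
    rfl
  rw [h2, h3]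
  change (LinearMap.ker P.flip).liftQ φ h1
    (P.flip.quotKerEquivRange.symm ⟨P.flip z, z, rfl⟩) = φ z
  rw [LinearMap.quotKerEquivRange_symm_apply_image]
  rfl

end Pool.Agent.U724.NT
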