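import Pool.Agent.U724.NT.CDefs
import Pool.Agent.U724.NT.Chain
import Pool.Agent.U724.NT.Lin
import Pool.Agent.N64.AF.L1

/-!
# The law for complexes `0 ⟶ M ⟶ D ⟶ (cycles) ^ * ⟶ 0`
-/

set_option autoImplicit false
set_option linter.unusedSectionVars false

open CategoryTheory Limits MonoidalCategory Module Filter Topology
open Pool.Agent.Y112.SR Pool.Agent.Y112.KD Pool.Agent.N64.AF Pool.Agent.N64.AF.N690V2
open Pool.Agent.N701.AFE5
open scoped ENNReal

namespace Pool.Agent.U724.NT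

universe v u w t x

variable {C : Type u} [Category.{v} C] [Preadditive C] [MonoidalCategory C]
  [MonoidalPreadditive C] [SymmetricCategory C] [RightRigidCategory C]
  {Λ : Type t} [Field Λ] [CharZero Λ] [Linear Λ C] [MonoidalLinear Λ C]
  {K : Type w} [Field K] [IsAlgClosed K] [Algebra Λ K] {R : SuperRealisation C K}

section Stab

variable {T : C} {M D : C ⥤ ModuleCat.{x} Λ} (r : M ⟶ D)
  {P : ∀ Z : C, D.obj Z →ₗ[Λ] (Z ⟶ 𝟙_ C) →ₗ[Λ] Λ}

lemma stab_top (hP : IsCyclePairing R T P) : IsStab D (fun Z => perp (P Z) ⊤) := by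
  intro Y Z f x hx z _
  rw [hP.nat]
  exact hx _ Submodule.mem_top

lemma stab_num (hR : IsReal Λ R) (hP : IsCyclePairing R T P) :
    IsStab D (fun Z => perp (P Z) (numIdeal Λ Z (𝟙_ C))) := by
  intro Y Z f x hx z hz
  rw [hP.nat]
  refine hx _ ?_
  have h := NumTriv.comp hR (mem_numIdeal.1 hz) f (𝟙 _)
  rwa [Category.comp_id] at h

/-- The middle homology. -/
abbrev homF2 (hP : IsCyclePairing R T P) : C ⥤ ModuleCat.{x} Λ :=
  quoS (sub D _ (stab_top hP)) _ (stab_comap (stab_top hP) (stab_range r))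

/-- The dual of the numerically trivial cycles modulo homological equivalence. -/
abbrev numF3 (hR : IsReal Λ R) (hP : IsCyclePairing R T P) : C ⥤ ModuleCat.{x} Λ :=
  quoS D _ (stab_num hR hP)

end Stab

/-- If the law for the numerically trivial cycles modulo homological equivalence has a finite limit
then there are none. -/
theorem homEqNum_of_finite {T : C} [ExactPairing T T] (h : IsPow Λ R T)
    {D : C ⥤ ModuleCat.{x} Λ} [D.Additive] [D.Linear Λ]
    {P : ∀ Z : C, D.obj Z →ₗ[Λ] (Z ⟶ 𝟙_ C) →ₗ[Λ] Λ} (hP : IsCyclePairing R T P) {k : ℕ}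
    (hk : ∀ (a b : ℕ) (f : tp T a ⟶ tp T b), NumPow T k f → (numF3 h.real hP).map f = 0)
    (m : ℕ) : HomEqNumAt R T m := by
  intro z hz
  by_contra hne
  obtain ⟨b, i, f, hf, hfz⟩ := exists_chain' h.real hz k
  have h1 := hk b m f hf
  have h2 : R.H.map (f ≫ z) = 0 := by
    rw [← hP.nondeg]
    intro x
    rw [← hP.nat]
    have h3 := quoS_map_mk (stab_num h.real hP) f x
    rw [h1] at h3
    exact (Submodule.Quotient.mk_eq_zero _).1 h3.symm z (mem_numIdeal.2 hz)
  rw [hfz] at h2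
  apply map_cpow_ne R hne (k + 1)
  have h3 : cpow z (k + 1) = i.inv ≫ i.hom ≫ cpow z (k + 1) := by
    rw [Iso.inv_hom_id_assoc]
  rw [h3, Functor.map_comp, h2, comp_zero]

/-- The dimension of the cokernel. -/
lemma coker_eq {T : C} [ExactPairing T T] (h : IsPow Λ R T)
    {M D : C ⥤ ModuleCat.{x} Λ} [D.Additive] [D.Linear Λ] (r : M ⟶ D)
    {P : ∀ Z : C, D.obj Z →ₗ[Λ] (Z ⟶ 𝟙_ C) →ₗ[Λ] Λ} (hP : IsCyclePairing R T P)
    (hr : ∀ (Z : C) (x : M.obj Z) (z : Z ⟶ 𝟙_ C), P Z ((r.app Z).hom x) z = 0)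
    (hfin : ∀ n, Module.Finite Λ (D.obj (tp T n))) (n : ℕ) :
    cokerDim T r n = dimE Λ ((homF2 r hP).obj (tp T n)) +
      dimE Λ ((numF3 h.real hP).obj (tp T n)) + numRank Λ (tp T n) := by
  have := hfin n
  have f1 : Module.Finite Λ (perp (P (tp T n)) ⊤) := inferInstance
  have f1' : Module.Finite Λ ((sub D _ (stab_top hP)).obj (tp T n)) := f1
  have f2 : Module.Finite Λ ((homF2 r hP).obj (tp T n)) :=
    inferInstanceAs (Module.Finite Λ (((sub D _ (stab_top hP)).obj (tp T n)) ⧸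
      (LinearMap.range (r.app (tp T n)).hom).comap (perp (P (tp T n)) ⊤).subtype))
  have f3 : Module.Finite Λ ((numF3 h.real hP).obj (tp T n)) :=
    inferInstanceAs (Module.Finite Λ (D.obj (tp T n) ⧸
      perp (P (tp T n)) (numIdeal Λ (tp T n) (𝟙_ C))))
  rw [cokerDim, dimE_eq, dimE_eq, dimE_eq]
  have e1 := Submodule.finrank_quotient_add_finrank (LinearMap.range (r.app (tp T n)).hom)
  have e2 : finrank Λ ((homF2 r hP).obj (tp T n)) +
      finrank Λ ((LinearMap.range (r.app (tp T n)).hom).comap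
        (perp (P (tp T n)) ⊤).subtype) = finrank Λ (perp (P (tp T n)) ⊤) :=
    Submodule.finrank_quotient_add_finrank _
  have e3 : finrank Λ ((numF3 h.real hP).obj (tp T n)) +
      finrank Λ (perp (P (tp T n)) (numIdeal Λ (tp T n) (𝟙_ C))) =
        finrank Λ (D.obj (tp T n)) := Submodule.finrank_quotient_add_finrank _
  have e4 : finrank Λ ((LinearMap.range (r.app (tp T n)).hom).comap
      (perp (P (tp T n)) ⊤).subtype) = finrank Λ (LinearMap.range (r.app (tp T n)).hom) := by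
    apply LinearEquiv.finrank_eq
    apply Submodule.comapSubtypeEquivOfLe
    rintro _ ⟨y, rfl⟩ z _
    exact hr _ y z
  have e5 := finrank_perp_sub (P := P (tp T n)) (A := homSub h.real (tp T n) (𝟙_ C))
    (B := numIdeal Λ (tp T n) (𝟙_ C)) (fun z => hP.nondeg n z) (by
      intro z hz
      rw [mem_numIdeal]
      exact numTriv_of_map h.real hz)
  have e6 : finrank Λ ((tp T n ⟶ 𝟙_ C) ⧸ numIdeal Λ (tp T n) (𝟙_ C)) = numRank Λ (tp T n) := by
    have e7 := nr_tp h.real T n 0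
    rw [Nat.add_zero] at e7
    rw [← e7, Pool.Agent.N199.AFA3.nr_eq]
    have h1 : Pool.Agent.N199.AFA3.sw Λ (𝟙 (tp T n)) (𝟙 (tp T 0)) = ⊤ := by
      rw [eq_top_iff]
      intro x _
      exact Pool.Agent.N199.AFA3.mem_sw.2 ⟨x, by simp⟩
    rw [h1, Submodule.map_top, Submodule.range_mkQ, finrank_top]
  have e8 : finrank Λ (D.obj (tp T n) ⧸ LinearMap.range (r.app (tp T n)).hom) =
      finrank Λ ((homF2 r hP).obj (tp T n)) + finrank Λ ((numF3 h.real hP).obj (tp T n)) +
        numRank Λ (tp T n) := by omega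
  rw [e8]
  push_cast
  rfl

end Pool.Agent.U724.NT
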