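import Pool.Agent.U724.NT.Law
import Pool.Agent.N64.AF.M5

/-!
# The law for natural transformations on the powers of `T ⊗ Tᘁ`
-/

set_option autoImplicit false
set_option linter.unusedSectionVars false

open CategoryTheory Limits MonoidalCategory Module Filter Topology
open Pool.Agent.Y112.SR Pool.Agent.Y112.KD Pool.Agent.N64.AF
open scoped ENNReal

namespace Pool.Agent.U724.NT

universe v u w t x

variable {C : Type u} [Category.{v} C] [Preadditive C] [MonoidalCategory C]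
  [MonoidalPreadditive C] [SymmetricCategory C] [RightRigidCategory C]
  {Λ : Type t} [Field Λ] [CharZero Λ] [Linear Λ C] [MonoidalLinear Λ C]
  {K : Type w} [Field K] [IsAlgClosed K] [Algebra Λ K] {R : SuperRealisation C K}

/-- **The law for natural transformations, on the powers of `T ⊗ Tᘁ`.** -/
theorem dual_nat_law (hR : IsReal Λ R) {T : C} (hT : R.CPlus T) (hb : 0 < bt R T)
    (M D : C ⥤ ModuleCat.{x} Λ)
    [M.Additive] [M.Linear Λ] [D.Additive] [D.Linear Λ] (r : M ⟶ D)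
    (hfin : ∀ n, Module.Finite Λ (D.obj (tp (T ⊗ Tᘁ) n)))
    (hhom : ∀ (a b : ℕ) (u : tp (T ⊗ Tᘁ) a ⟶ tp (T ⊗ Tᘁ) b), R.H.map u = 0 → D.map u = 0) :
    (∃ A B : ℕ∞, NatLaw R (T ⊗ Tᘁ) r A B) ∧
    ∀ m n : ℕ, ¬ Function.Bijective (r.app (tp (T ⊗ Tᘁ) m)).hom →
      128 * (m + 1) ^ 2 * bt R T ^ (4 * m + 12) ≤ n →
      ((bt R T ^ (2 * n) : ℕ) : ℕ∞) ≤ (2 * (n + 1) ^ (bt R T ^ 2) : ℕ) *
        (kerDim (T ⊗ Tᘁ) r n + cokerDim (T ⊗ Tᘁ) r n) := by
  obtain ⟨inst, hS⟩ := isPow_tensor_dual hR hT hb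
  refine ⟨nat_law hS M D r hfin hhom, fun m n hm hn => ?_⟩
  by_cases hinj : Function.Injective (r.app (tp (T ⊗ Tᘁ) m)).hom
  · have hsur : ¬ Function.Surjective (r.app (tp (T ⊗ Tᘁ) m)).hom := fun h => hm ⟨hinj, h⟩
    have h1 := growth_gap hR hT hb (cokerF r) hn (fun hs => hsur ?_)
    · refine h1.trans ?_
      gcongr
      change cokerDim (T ⊗ Tᘁ) r n ≤ _
      exact le_add_self
    · have h2 : Subsingleton (D.obj (tp (T ⊗ Tᘁ) m) ⧸
          LinearMap.range (r.app (tp (T ⊗ Tᘁ) m)).hom) := hs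
      rwa [Submodule.Quotient.subsingleton_iff, LinearMap.range_eq_top] at h2
  · have h1 := growth_gap hR hT hb (kerF r) hn (fun hs => hinj ?_)
    · refine h1.trans ?_
      gcongr
      change kerDim (T ⊗ Tᘁ) r n ≤ _
      exact le_self_add
    · have h2 : Subsingleton (LinearMap.ker (r.app (tp (T ⊗ Tᘁ) m)).hom) := hs
      rwa [Submodule.subsingleton_iff_eq_bot, LinearMap.ker_eq_bot] at h2

end Pool.Agent.U724.NT
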