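import Pool.Agent.U724.NT.Growth

/-!
# The growth of the image of a natural transformation: main theorem
-/

set_option autoImplicit false
set_option linter.unusedSectionVars false

open CategoryTheory Limits MonoidalCategory Module Filter Topology
open Pool.Agent.Y112.SR Pool.Agent.Y112.KD Pool.Agent.N64.AF Pool.Agent.N8.AFBb
open scoped ENNReal

namespace Pool.Agent.U724.NT

universe v u w t x

/-- Logarithmic growth rates. -/
lemma tendsto_log_div {f : ℕ → ℕ} {b B n₀ : ℕ} (hb : 0 < b)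
    (hlow : ∀ n, n₀ ≤ n → b ^ (2 * n) ≤ 2 * (n + 1) ^ B * f n) (hup : ∀ n, f n ≤ b ^ (2 * n)) :
    Tendsto (fun n : ℕ => Real.log (f n) / n) atTop (𝓝 (2 * Real.log b)) := by
  have h0 : Tendsto (fun n : ℕ => Real.log ((n : ℝ) + 1) / n) atTop (𝓝 0) := by
    have h1 := (Real.tendsto_pow_log_div_mul_add_atTop 1 (-1) 1 one_ne_zero).comp
      (tendsto_natCast_atTop_atTop.comp (tendsto_add_atTop_nat 1))
    refine h1.congr fun n => ?_
    simp
  have h0' : Tendsto (fun n : ℕ => Real.log 2 / (n : ℝ)) atTop (𝓝 0) :=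
    tendsto_const_div_atTop_nhds_zero_nat _
  have h2 : Tendsto (fun n : ℕ => 2 * Real.log b -
      (Real.log 2 / (n : ℝ) + B * (Real.log ((n : ℝ) + 1) / n))) atTop (𝓝 (2 * Real.log b)) := by
    have h3 := tendsto_const_nhds (x := 2 * Real.log (b : ℝ)) |>.sub (h0'.add (h0.const_mul (B : ℝ)))
    simpa using h3
  refine tendsto_of_tendsto_of_tendsto_of_le_of_le' h2 tendsto_const_nhds ?_ ?_
  · filter_upwards [eventually_ge_atTop (max n₀ 1)] with n hn
    have hn0 : n₀ ≤ n := le_trans (le_max_left _ _) hn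
    have hn1 : 1 ≤ n := le_trans (le_max_right _ _) hn
    have hn1' : (0 : ℝ) < n := by exact_mod_cast hn1
    have h4 := hlow n hn0
    have hf : 0 < f n := by
      rcases Nat.eq_zero_or_pos (f n) with h | h
      · rw [h, mul_zero] at h4
        have : 0 < b ^ (2 * n) := by positivity
        omega
      · exact h
    have h5 : ((b : ℝ) ^ (2 * n)) ≤ 2 * ((n : ℝ) + 1) ^ B * f n := by exact_mod_cast h4
    have h6 := Real.log_le_log (by positivity) h5
    rw [Real.log_pow, Real.log_mul (by positivity) (by positivity),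
      Real.log_mul (by positivity) (by positivity), Real.log_pow] at h6
    push_cast at h6
    rw [le_div_iff₀ hn1']
    have e : (2 * Real.log b - (Real.log 2 / (n : ℝ) + B * (Real.log ((n : ℝ) + 1) / n))) * n =
        2 * n * Real.log b - (Real.log 2 + B * Real.log ((n : ℝ) + 1)) := by
      field_simp
    rw [e]
    linarith
  · filter_upwards [eventually_ge_atTop 1] with n hn1
    have hn1' : (0 : ℝ) < n := by exact_mod_cast hn1
    rw [div_le_iff₀ hn1']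
    rcases Nat.eq_zero_or_pos (f n) with h | h
    · rw [h]
      have : 0 ≤ Real.log b := Real.log_natCast_nonneg b
      simp
      positivity
    · have h5 : (f n : ℝ) ≤ (b : ℝ) ^ (2 * n) := by exact_mod_cast hup n
      have h6 := Real.log_le_log (by positivity) h5
      rw [Real.log_pow] at h6
      push_cast at h6
      linarith

variable {C : Type u} [Category.{v} C] [Preadditive C] [MonoidalCategory C]
  [MonoidalPreadditive C] [SymmetricCategory C] [RightRigidCategory C]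
  {Λ : Type t} [Field Λ] [CharZero Λ] [Linear Λ C] [MonoidalLinear Λ C]
  {K : Type w} [Field K] [IsAlgClosed K] [Algebra Λ K] {R : SuperRealisation C K}

/-- **Growth of the image.** -/
theorem growth_law (hR : IsReal Λ R) {T : C} (hT : R.CPlus T) (hb : 0 < bt R T)
    (M D : C ⥤ ModuleCat.{x} Λ)
    [M.Additive] [M.Linear Λ] [D.Additive] [D.Linear Λ] (r : M ⟶ D)
    (hhom : ∀ (a b : ℕ) (u : tp (T ⊗ Tᘁ) a ⟶ tp (T ⊗ Tᘁ) b), R.H.map u = 0 → D.map u = 0)
    (hfin : ∀ n, Module.Finite Λ (D.obj (tp (T ⊗ Tᘁ) n)))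
    (hdim : ∀ n, finrank Λ (D.obj (tp (T ⊗ Tᘁ) n)) ≤ bt R T ^ (2 * n))
    (m : ℕ) (y : M.obj (tp (T ⊗ Tᘁ) m)) (hy : (r.app (tp (T ⊗ Tᘁ) m)).hom y ≠ 0) :
    (∃ N : ℕ∞, 1 ≤ N ∧ HasLaw Λ (T ⊗ Tᘁ) (imDim (T ⊗ Tᘁ) r) N) ∧
    (∃ (g : tp (T ⊗ Tᘁ) m ⟶ tp (T ⊗ Tᘁ) m) (k : ℕ), NumIdem g ∧ IsRk R g k ∧ 0 < k ∧
      0 < nr Λ g (𝟙 (tp (T ⊗ Tᘁ) m)) ∧
      ∀ n, ((nr Λ g (𝟙 (tp (T ⊗ Tᘁ) n)) : ℕ) : ℕ∞) ≤ imDim (T ⊗ Tᘁ) r n) ∧
    (∀ n : ℕ, 128 * (m + 1) ^ 2 * bt R T ^ (4 * m + 12) ≤ n →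
      ((bt R T ^ (2 * n) : ℕ) : ℕ∞) ≤
        (2 * (n + 1) ^ (bt R T ^ 2) : ℕ) * imDim (T ⊗ Tᘁ) r n) ∧
    Tendsto (fun n : ℕ => Real.log (imDim (T ⊗ Tᘁ) r n).toNat / n) atTop
      (𝓝 (2 * Real.log (bt R T))) := by
  obtain ⟨inst, hS⟩ := isPow_tensor_dual hR hT hb
  have hne : ¬ Subsingleton ((imF r).obj (tp (T ⊗ Tᘁ) m)) := by
    intro hs
    have h1 : Subsingleton (LinearMap.range (r.app (tp (T ⊗ Tᘁ) m)).hom) := hs
    rw [Submodule.subsingleton_iff_eq_bot, LinearMap.range_eq_bot] at h1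
    apply hy
    rw [h1]
    rfl
  have hfin' : ∀ n, Module.Finite Λ ((imF r).obj (tp (T ⊗ Tᘁ) n)) := fun n => by
    have := hfin n
    exact inferInstanceAs (Module.Finite Λ (LinearMap.range (r.app (tp (T ⊗ Tᘁ) n)).hom))
  have him : ∀ n, imDim (T ⊗ Tᘁ) r n = (finrank Λ ((imF r).obj (tp (T ⊗ Tᘁ) n)) : ℕ∞) :=
    fun n => by
      have := hfin' n
      exact dimE_eq
  have hcp : ∀ n, R.CPlus (tp (T ⊗ Tᘁ) n) := fun n => cplus_tp hS.real hS.cplus n
  have hgrow : ∀ n : ℕ, 128 * (m + 1) ^ 2 * bt R T ^ (4 * m + 12) ≤ n →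
      ((bt R T ^ (2 * n) : ℕ) : ℕ∞) ≤
        (2 * (n + 1) ^ (bt R T ^ 2) : ℕ) * imDim (T ⊗ Tᘁ) r n :=
    fun n hn => growth_gap hR hT hb (imF r) hn hne
  refine ⟨?_, ?_, hgrow, ?_⟩
  · obtain ⟨N, h1, h2, -⟩ := law_full hS (imF r)
    refine ⟨N, ?_, h1⟩
    rw [Order.one_le_iff_pos, pos_iff_ne_zero]
    intro h0
    exact hne (h2.1 h0 m)
  · have := hfin' m
    obtain ⟨g, k, h1, h2, h3, h4, h5⟩ := exists_motive hR (hcp m) (imF r) (fun z hz =>
      sub_nil (stab_range r) z (nil_of_hom hR (hcp m) D (hhom m m) hz)) hne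
    refine ⟨g, k, h1, h2, h3, h4, fun n => ?_⟩
    rw [him]
    exact_mod_cast h5 _ (hfin' n)
  · have h1 := tendsto_log_div (f := fun n => finrank Λ ((imF r).obj (tp (T ⊗ Tᘁ) n)))
      (b := bt R T) (B := bt R T ^ 2) (n₀ := 128 * (m + 1) ^ 2 * bt R T ^ (4 * m + 12)) hb
      (fun n hn => by
        have h2 := hgrow n hn
        rw [him] at h2
        exact_mod_cast h2)
      (fun n => by
        have := hfin n
        exact (Submodule.finrank_le _).trans (hdim n))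
    refine h1.congr fun n => ?_
    rw [him, ENat.toNat_natCast]

end Pool.Agent.U724.NT
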